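import Mathlib
import Pool.Agent.Lib.Helper35.Final

/-!
# Normal numbers whose reciprocal is deterministic: literal definitions

The digit sequence, normality, the limit points of the empirical measures and the
Kolmogorov-Sinai entropy, as in the problem file.
-/

set_option autoImplicit false

open MeasureTheory Filter Topology
open scoped ENNReal

namespace Pool.Agent.Lib.H5FRZ

/-- The digit sequence of the fractional part of `x` in base `r` (Mathlib's `Real.digits`); the
digit `a_{n+1}` of the problem file has index `n`. If there are two expansions this is the one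
which ends in zeros. -/
noncomputable def digitSeq (r : ℕ) [NeZero r] (x : ℝ) : ℕ → Fin r :=
  Real.digits (Int.fract x) r

/-- `x` is normal in base `r`: for every `k ≥ 1` and every word `w` of length `k`, the proportion of
the positions among the first `N` at which `w` occurs tends to `r ^ (-k)`. -/
def Normal (r : ℕ) [NeZero r] (x : ℝ) : Prop :=
  ∀ k : ℕ, 1 ≤ k → ∀ w : Fin k → Fin r,
    Tendsto (fun N : ℕ =>
      (((Finset.range N).filter (fun i => ∀ j : Fin k, digitSeq r x (i + j) = w j)).card : ℝ) / N)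
      atTop (𝓝 (1 / (r : ℝ) ^ k))

/-- The left shift. -/
def shift {A : Type*} (a : ℕ → A) : ℕ → A := fun n => a (n + 1)

/-- The empirical measure `(1/N) ∑_{n < N} δ_{σ^n a}`. -/
noncomputable def empirical {r : ℕ} (a : ℕ → Fin r) (N : ℕ) : Measure (ℕ → Fin r) :=
  (N : ℝ≥0∞)⁻¹ • ∑ n ∈ Finset.range N, Measure.dirac (shift^[n] a)

theorem isProb_empirical {r : ℕ} (a : ℕ → Fin r) (N : ℕ) (hN : N ≠ 0) :
    IsProbabilityMeasure (empirical a N) := by
  constructor
  unfold empirical
  rw [Measure.smul_apply, Measure.finsetSum_apply]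
  simp only [measure_univ, Finset.sum_const, Finset.card_range, smul_eq_mul, nsmul_eq_mul, mul_one]
  exact ENNReal.inv_mul_cancel (by exact_mod_cast hN) (ENNReal.natCast_ne_top N)

/-- The empirical measure `(1/N) ∑_{n < N} δ_{σ^n a}` as a probability measure, at `N + 1`. -/
noncomputable def empiricalProb {r : ℕ} (a : ℕ → Fin r) (N : ℕ) :
    ProbabilityMeasure (ℕ → Fin r) :=
  ⟨empirical a (N + 1), isProb_empirical a (N + 1) N.succ_ne_zero⟩

/-- `μ` is a weak* limit point of the empirical measures of `a`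
(a cluster point of the sequence for the topology of weak convergence). -/
def IsLimitPoint {r : ℕ} (a : ℕ → Fin r) (μ : ProbabilityMeasure (ℕ → Fin r)) : Prop :=
  MapClusterPt μ atTop (empiricalProb a)

/-- The entropy `H_μ(P ∨ T⁻¹ P ∨ ⋯ ∨ T^{-(n-1)} P)`, where `P` is the partition into the level
sets of `f : X → Fin k`. -/
noncomputable def joinEntropy {X : Type*} [MeasurableSpace X] (T : X → X) (μ : Measure X) {k : ℕ}
    (f : X → Fin k) (n : ℕ) : ℝ :=
  ∑ w : Fin n → Fin k, Real.negMulLog (μ.real {x | ∀ j : Fin n, f (T^[j] x) = w j})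

/-- The Kolmogorov-Sinai entropy: the supremum over all finite measurable partitions `P` of
`lim (1/n) H_μ(P ∨ ⋯ ∨ T^{-(n-1)} P)` (the limit exists for invariant `μ`; here a limsup). -/
noncomputable def ksEntropy {X : Type*} [MeasurableSpace X] (T : X → X) (μ : Measure X) : ℝ≥0∞ :=
  ⨆ (k : ℕ) (f : X → Fin k) (_ : Measurable f),
    limsup (fun n : ℕ => ENNReal.ofReal (joinEntropy T μ f n / n)) atTop

/-- `x` is deterministic in base `r`. -/
def Deterministic (r : ℕ) [NeZero r] (x : ℝ) : Prop :=
  ∀ μ : ProbabilityMeasure (ℕ → Fin r), IsLimitPoint (digitSeq r x) μ →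
    ksEntropy shift (μ : Measure (ℕ → Fin r)) = 0

/-! ### digits -/

theorem digitSeq_eq_iff (r : ℕ) [NeZero r] (x : ℝ) (n : ℕ) (d : Fin r) :
    digitSeq r x n = d ↔ ⌊x * (r : ℝ) ^ (n + 1)⌋ % (r : ℤ) = ((d : ℕ) : ℤ) := by
  have hr : r ≠ 0 := NeZero.ne r
  have hnn : 0 ≤ Int.fract x * (r : ℝ) ^ (n + 1) :=
    mul_nonneg (Int.fract_nonneg x) (by positivity)
  have h1 : (⌊Int.fract x * (r : ℝ) ^ (n + 1)⌋₊ : ℤ) = ⌊Int.fract x * (r : ℝ) ^ (n + 1)⌋ :=
    Int.natCast_floor_eq_floor hnn
  have h2 : ⌊Int.fract x * (r : ℝ) ^ (n + 1)⌋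
      = ⌊x * (r : ℝ) ^ (n + 1)⌋ - ⌊x⌋ * (r : ℤ) ^ (n + 1) := by
    have : Int.fract x * (r : ℝ) ^ (n + 1)
        = x * (r : ℝ) ^ (n + 1) - ((⌊x⌋ * (r : ℤ) ^ (n + 1) : ℤ) : ℝ) := by
      unfold Int.fract
      push_cast
      ring
    rw [this, Int.floor_sub_intCast]
  have h3 : ⌊Int.fract x * (r : ℝ) ^ (n + 1)⌋ % (r : ℤ) = ⌊x * (r : ℝ) ^ (n + 1)⌋ % (r : ℤ) := by
    have h4 : ⌊x⌋ * (r : ℤ) ^ (n + 1) = ⌊x⌋ * (r : ℤ) ^ n * (r : ℤ) := by ring
    rw [h2, h4, Int.sub_mul_emod_self_right]
  unfold digitSeq Real.digits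
  rw [← h3, ← h1]
  rw [Fin.ext_iff]
  simp only [Fin.val_ofNat]
  constructor
  · intro h; rw [← h]; norm_cast
  · intro h; exact_mod_cast h

/-! ### measures with values in `{0, 1}` have zero entropy -/

theorem ksEntropy_dirac {X : Type*} [MeasurableSpace X] (T : X → X) (μ : Measure X)
    (h : ∀ s : Set X, μ s = 0 ∨ μ s = 1) : ksEntropy T μ = 0 := by
  unfold ksEntropy
  simp only [ENNReal.iSup_eq_zero]
  intro k f _
  have h0 : ∀ n : ℕ, joinEntropy T μ f n = 0 := by
    intro n
    unfold joinEntropy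
    apply Finset.sum_eq_zero
    intro w _
    rcases h {x | ∀ j : Fin n, f (T^[j] x) = w j} with h1 | h1
    · rw [measureReal_def, h1]; simp
    · rw [measureReal_def, h1]; simp
  simp only [h0, zero_div, ENNReal.ofReal_zero]
  exact limsup_const 0

/-! ### limit points of a sequence whose nonzero digits have density zero -/

theorem empirical_apply {r : ℕ} (a : ℕ → Fin r) (N : ℕ) (s : Set (ℕ → Fin r))
    (hs : MeasurableSet s) [DecidablePred fun n => shift^[n] a ∈ s] :
    empirical a N s = (N : ℝ≥0∞)⁻¹ * ((Finset.range N).filter (fun n => shift^[n] a ∈ s)).card := by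
  classical
  unfold empirical
  rw [Measure.smul_apply, Measure.finsetSum_apply, smul_eq_mul]
  congr 1
  rw [Finset.card_filter]
  push_cast
  refine Finset.sum_congr rfl fun n _ => ?_
  rw [Measure.dirac_apply' _ hs]
  by_cases h : shift^[n] a ∈ s <;> simp [h]

theorem shift_iterate {A : Type*} (a : ℕ → A) (n j : ℕ) : shift^[n] a j = a (n + j) := by
  induction n generalizing a with
  | zero => simp
  | succ n ih =>
    rw [Function.iterate_succ_apply, ih]
    unfold shift
    congr 1
    omega

theorem limit_cyl {r : ℕ} [NeZero r] (a : ℕ → Fin r)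
    (ha : Tendsto (fun N : ℕ => (((Finset.range N).filter (fun n => a n ≠ 0)).card : ℝ) / N)
      atTop (𝓝 0))
    (μ : ProbabilityMeasure (ℕ → Fin r)) (hμ : IsLimitPoint a μ) (j : ℕ) :
    (μ : Measure (ℕ → Fin r)) {b | b j ≠ 0} = 0 := by
  classical
  set C : Set (ℕ → Fin r) := {b | b j ≠ 0} with hC
  have hclopen : IsClopen C := by
    have h1 : C = (fun b : ℕ → Fin r => b j) ⁻¹' {d | d ≠ 0} := rfl
    rw [h1]
    exact (isClopen_discrete _).preimage (continuous_apply j)
  have hmeas : MeasurableSet C := hclopen.isOpen.measurableSet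
  let f : BoundedContinuousFunction (ℕ → Fin r) NNReal :=
    { toFun := C.indicator (fun _ => 1)
      continuous_toFun := (IsClopen.continuous_indicator hclopen continuous_const)
      map_bounded' := by
        refine ⟨1, fun x y => ?_⟩
        rw [NNReal.dist_eq]
        by_cases hx : x ∈ C <;> by_cases hy : y ∈ C <;> simp [hx, hy] }
  have hfv : ∀ x, f x = C.indicator (fun _ => (1 : NNReal)) x := fun _ => rfl
  have hval : ∀ ν : ProbabilityMeasure (ℕ → Fin r),
      (ν.toFiniteMeasure.testAgainstNN f : ℝ≥0∞) = (ν : Measure (ℕ → Fin r)) C := by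
    intro ν
    rw [FiniteMeasure.testAgainstNN_coe_eq]
    have h1 : (fun x => (f x : ℝ≥0∞)) = C.indicator (fun _ => (1 : ℝ≥0∞)) := by
      funext x
      rw [hfv]
      by_cases hx : x ∈ C <;> simp [hx]
    rw [h1, lintegral_indicator hmeas, lintegral_one, Measure.restrict_apply_univ]
    rfl
  have hcont := ProbabilityMeasure.continuous_testAgainstNN_eval f
  have hclus := MapClusterPt.continuousAt_comp hcont.continuousAt hμ
  -- the values along the empirical measures tend to zero
  have hcard : ∀ N : ℕ, ((Finset.range (N + 1)).filter (fun n => shift^[n] a ∈ C)).card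
      ≤ ((Finset.range (N + 1)).filter (fun n => a n ≠ 0)).card + j := by
    intro N
    have h1 : ((Finset.range (N + 1)).filter (fun n => shift^[n] a ∈ C)).card
        ≤ ((Finset.range (N + 1 + j)).filter (fun n => a n ≠ 0)).card := by
      refine Finset.card_le_card_of_injOn (fun n => n + j) ?_ ?_
      · intro n hn
        have hn' := Finset.mem_filter.1 hn
        rw [Finset.mem_range] at hn'
        have h2 : a (n + j) ≠ 0 := by
          have h3 : shift^[n] a j ≠ 0 := hn'.2
          rwa [shift_iterate] at h3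
        exact Finset.mem_filter.2 ⟨Finset.mem_range.2 (by simpa using hn'.1), h2⟩
      · intro x _ y _ hxy
        exact Nat.add_right_cancel hxy
    refine h1.trans ?_
    have h4 : (Finset.range (N + 1 + j)).filter (fun n => a n ≠ 0)
        ⊆ ((Finset.range (N + 1)).filter (fun n => a n ≠ 0)) ∪ Finset.Ico (N + 1) (N + 1 + j) := by
      intro n hn
      rw [Finset.mem_filter, Finset.mem_range] at hn
      rw [Finset.mem_union, Finset.mem_filter, Finset.mem_range, Finset.mem_Ico]
      by_cases h5 : n < N + 1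
      · exact Or.inl ⟨h5, hn.2⟩
      · exact Or.inr ⟨not_lt.1 h5, hn.1⟩
    refine (Finset.card_le_card h4).trans ((Finset.card_union_le _ _).trans ?_)
    rw [Nat.card_Ico]
    omega
  have hlim : Tendsto (fun N : ℕ =>
      (((empiricalProb a N).toFiniteMeasure.testAgainstNN f : NNReal) : ℝ))
      atTop (𝓝 0) := by
    have hub : Tendsto (fun N : ℕ =>
        (((Finset.range (N + 1)).filter (fun n => a n ≠ 0)).card : ℝ) / ((N + 1 : ℕ) : ℝ)
          + (j : ℝ) / ((N + 1 : ℕ) : ℝ)) atTop (𝓝 (0 + 0)) := by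
      refine Tendsto.add ?_ ?_
      · exact ha.comp (tendsto_add_atTop_nat 1)
      · exact (tendsto_const_div_atTop_nhds_zero_nat (j : ℝ)).comp (tendsto_add_atTop_nat 1)
    rw [add_zero] at hub
    refine squeeze_zero (fun N => NNReal.coe_nonneg _) (fun N => ?_) hub
    have h1 := hval (empiricalProb a N)
    have h1' : ((empiricalProb a N : ProbabilityMeasure (ℕ → Fin r)) : Measure (ℕ → Fin r))
      = empirical a (N + 1) := rfl
    rw [h1', empirical_apply a (N + 1) C hmeas] at h1
    have h2 : (((empiricalProb a N).toFiniteMeasure.testAgainstNN f : NNReal) : ℝ)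
        = (((Finset.range (N + 1)).filter (fun n => shift^[n] a ∈ C)).card : ℝ) / ((N + 1 : ℕ) : ℝ) := by
      have h3 := congrArg ENNReal.toReal h1
      rw [ENNReal.coe_toReal] at h3
      rw [h3, ENNReal.toReal_mul, ENNReal.toReal_inv, ENNReal.toReal_natCast,
        ENNReal.toReal_natCast]
      rw [inv_mul_eq_div]
    rw [h2, ← add_div]
    have h4 : (0 : ℝ) ≤ ((N + 1 : ℕ) : ℝ) := Nat.cast_nonneg _
    refine div_le_div_of_nonneg_right ?_ h4
    exact_mod_cast hcard N
  have hlim' : Tendsto (fun N : ℕ =>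
      ((empiricalProb a N).toFiniteMeasure.testAgainstNN f : NNReal))
      atTop (𝓝 0) := by
    rw [← NNReal.tendsto_coe]
    simpa using hlim
  have h0 : μ.toFiniteMeasure.testAgainstNN f = 0 := by
    apply eq_of_nhds_neBot
    exact NeBot.mono hclus (inf_le_inf_left _ hlim')
  have h5 := hval μ
  rw [h0, ENNReal.coe_zero] at h5
  exact h5.symm

theorem limit_zero_one {r : ℕ} [NeZero r] (a : ℕ → Fin r)
    (ha : Tendsto (fun N : ℕ => (((Finset.range N).filter (fun n => a n ≠ 0)).card : ℝ) / N)
      atTop (𝓝 0))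
    (μ : ProbabilityMeasure (ℕ → Fin r)) (hμ : IsLimitPoint a μ) (s : Set (ℕ → Fin r)) :
    (μ : Measure (ℕ → Fin r)) s = 0 ∨ (μ : Measure (ℕ → Fin r)) s = 1 := by
  have h1 : (μ : Measure (ℕ → Fin r)) {0}ᶜ = 0 := by
    have h2 : ({0}ᶜ : Set (ℕ → Fin r)) ⊆ ⋃ j : ℕ, {b | b j ≠ 0} := by
      intro b hb
      rw [Set.mem_compl_iff, Set.mem_singleton_iff] at hb
      rw [Set.mem_iUnion]
      by_contra hcon
      push Not at hcon
      apply hb
      funext j
      by_contra h3
      exact hcon j h3
    refine measure_mono_null h2 ?_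
    rw [measure_iUnion_null_iff]
    exact fun j => limit_cyl a ha μ hμ j
  by_cases h0 : (0 : ℕ → Fin r) ∈ s
  · right
    have h3 : (μ : Measure (ℕ → Fin r)) {0} = 1 := by
      have h4 := prob_add_prob_compl (μ := (μ : Measure (ℕ → Fin r)))
        (measurableSet_singleton (0 : ℕ → Fin r))
      rwa [h1, add_zero] at h4
    refine le_antisymm prob_le_one ?_
    rw [← h3]
    exact measure_mono (Set.singleton_subset_iff.2 h0)
  · left
    refine measure_mono_null ?_ h1
    intro b hb hb0
    rw [Set.mem_singleton_iff] at hb0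
    exact h0 (hb0 ▸ hb)

/-- If the nonzero digits of `x` have density zero then `x` is deterministic. -/
theorem deterministic_of_density {r : ℕ} [NeZero r] (x : ℝ)
    (ha : Tendsto (fun N : ℕ =>
      (((Finset.range N).filter (fun n => digitSeq r x n ≠ 0)).card : ℝ) / N) atTop (𝓝 0)) :
    Deterministic r x := by
  intro μ hμ
  exact ksEntropy_dirac _ _ (limit_zero_one _ ha μ hμ)

theorem inf_false (ω : ℕ → Bool)
    (hω : Tendsto (fun N : ℕ => (((Finset.range N).filter (fun i => ω i = true)).card : ℝ) / N)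
      atTop (𝓝 0)) (P : ℕ) : ∃ Q, P ≤ Q ∧ ω Q = false := by
  by_contra hcon
  push Not at hcon
  have hall : ∀ Q, P ≤ Q → ω Q = true := by
    intro Q hQ
    have := hcon Q hQ
    simpa using this
  have h1 : ∀ᶠ N : ℕ in atTop, (1/2 : ℝ) ≤
      (((Finset.range N).filter (fun i => ω i = true)).card : ℝ) / N := by
    filter_upwards [eventually_ge_atTop (2 * P + 1)] with N hN
    have hNpos : (0:ℝ) < N := by exact_mod_cast (by omega : 0 < N)
    rw [le_div_iff₀ hNpos]
    have h2 : (Finset.Ico P N) ⊆ (Finset.range N).filter (fun i => ω i = true) := by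
      intro i hi
      rw [Finset.mem_Ico] at hi
      rw [Finset.mem_filter, Finset.mem_range]
      exact ⟨hi.2, hall i hi.1⟩
    have h3 := Finset.card_le_card h2
    rw [Nat.card_Ico] at h3
    have h4 : (N : ℝ) ≤ 2 * (((Finset.range N).filter (fun i => ω i = true)).card : ℝ) := by
      exact_mod_cast (by omega : N ≤ 2 * ((Finset.range N).filter (fun i => ω i = true)).card)
    linarith
  have h2 := hω.eventually_lt_const (by norm_num : (0:ℝ) < 1/2)
  obtain ⟨N, hN1, hN2⟩ := (h1.and h2).exists
  linarith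

/-- For every base `r ≥ 2` there is a number `x`, normal in base `r`, such that `1 / x` is
deterministic in base `r`; moreover the nonzero digits of `1 / x` have density zero. -/
theorem main (r : ℕ) [NeZero r] (hr : 2 ≤ r) :
    ∃ x : ℝ, Normal r x ∧ Deterministic r (1 / x) ∧
      Tendsto (fun N : ℕ =>
        (((Finset.range N).filter (fun n => digitSeq r (1 / x) n ≠ 0)).card : ℝ) / N)
        atTop (𝓝 0) := by
  classical
  have h1 : ∀ᵐ ω ∂(Helper35.mu Helper35.dl), ∀ h : ℕ, 1 ≤ h → Tendsto (fun N : ℕ =>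
      ‖∑ i ∈ Finset.range N, Helper35.ee (h * (r:ℝ) ^ i / Helper35.yy r ω)‖ / (N : ℝ))
        atTop (𝓝 0) := by
    rw [ae_all_iff]
    intro h
    by_cases hh : 1 ≤ h
    · filter_upwards [Helper35.ae_exp r hr h hh] with ω hω _
      exact hω
    · exact Filter.Eventually.of_forall fun ω hh' => absurd hh' hh
  obtain ⟨ω, hω1, hω2⟩ := (h1.and Helper35.ae_dens).exists
  suffices hdens : Tendsto (fun N : ℕ =>
      (((Finset.range N).filter (fun n => digitSeq r (1 / (Helper35.yy r ω)⁻¹) n ≠ 0)).card : ℝ) / N)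
      atTop (𝓝 0) by
    refine ⟨(Helper35.yy r ω)⁻¹, ?_, deterministic_of_density _ hdens, hdens⟩
    intro k _ w
    have h2 := Helper35.normal_of_weyl r hr (Helper35.yy r ω)⁻¹ ?_ k w
    · refine h2.congr fun N => ?_
      congr 3
      refine Finset.filter_congr fun i _ => ?_
      refine forall_congr' fun j => ?_
      exact (digitSeq_eq_iff r _ (i + j) (w j)).symm
    intro h hh
    rw [tendsto_zero_iff_norm_tendsto_zero]
    refine (hω1 h hh).congr fun N => ?_
    rw [norm_div, Complex.norm_natCast]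
    congr 2
    refine Finset.sum_congr rfl fun i _ => ?_
    unfold Helper35.ee
    congr 1
    push_cast
    ring
  rw [one_div, inv_inv]
  refine squeeze_zero (fun N => by positivity) (fun N => ?_) hω2
  gcongr with i hi
  intro hne
  by_contra hi2
  apply hne
  rw [digitSeq_eq_iff]
  obtain ⟨Q, hQ1, hQ2⟩ := inf_false ω hω2 (i + 1)
  rw [Helper35.digit_yy hr ω i Q hQ1 hQ2, if_neg hi2]
  simp

end Pool.Agent.Lib.H5FRZ
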